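import Pool.Agent.W823.QT.Stm
import Pool.Agent.W845.Expo

/-! Project QT, part LIMQ: convergence of the quenched weights. -/

set_option autoImplicit false

namespace Pool.Agent.W753.QTLIMQ

open MeasureTheory ProbabilityTheory Filter Topology
open scoped ENNReal NNReal
open Pool.Agent.W823.QT (TrapSystem pathExposure quenchedWeight hitsg qg LIM_T LIMQ_T GRD_T)
open Pool.Agent.W845.Traps (IsWalk En_lip En_meas)

universe u v

theorem hitsg_meas {d : ℕ} {Ω : Type u} {Ω' : Type v} [MeasurableSpace Ω] [MeasurableSpace Ω']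
    (N : (Fin d → ℤ) → Ω → ℕ) (Y : (Fin d → ℤ) → ℕ → ℝ≥0 → Ω → Fin d → ℤ)
    (hN : ∀ y, Measurable (N y)) (hY : ∀ y j s, Measurable (Y y j s)) (h : ℝ≥0) (m : ℕ)
    (Z : ℕ → Ω' → Fin d → ℤ) (hZ : ∀ k, Measurable (Z k)) :
    Measurable (fun p : Ω' × Ω => hitsg N Y h m (fun k => Z k p.1) p.2) := by
  classical
  unfold hitsg
  refine Measurable.tsum fun y => ?_
  have key : Measurable (fun q : ℕ × (Ω' × Ω) => ∑ j ∈ Finset.range q.1,
    (((Finset.Icc 1 m).filter fun k : ℕ => y + Y y j ((k : ℝ≥0) * h) q.2.2 = Z k q.2.1).card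
      : ℝ≥0∞)) := by
    refine measurable_from_prod_countable_right fun n => ?_
    have h3 : ∀ j ∈ Finset.range n, Measurable (fun p : Ω' × Ω => (((Finset.Icc 1 m).filter
        fun k : ℕ => y + Y y j ((k : ℝ≥0) * h) p.2 = Z k p.1).card : ℝ≥0∞)) := by
      intro j _
      have h4 : ∀ k ∈ Finset.Icc 1 m, Measurable (fun p : Ω' × Ω =>
          if y + Y y j ((k : ℝ≥0) * h) p.2 = Z k p.1 then (1 : ℝ≥0∞) else 0) := by
        intro k _
        refine Measurable.ite (measurableSet_eq_fun ?_ ?_) measurable_const measurable_const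
        · exact ((hY y j _).comp measurable_snd).const_add y
        · exact (hZ k).comp measurable_fst
      simp only [Finset.card_filter, Nat.cast_sum, Nat.cast_ite, Nat.cast_one, Nat.cast_zero]
      exact Finset.measurable_fun_sum _ h4
    exact Finset.measurable_fun_sum _ h3
  have h2 : Measurable (fun p : Ω' × Ω => (N y p.2, p)) :=
    ((hN y).comp measurable_snd).prodMk measurable_id
  convert! key.comp h2

theorem main (h1 : LIM_T.{u, v}) (_h2 : GRD_T.{u, v}) : LIMQ_T.{u, v} := by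
  intro d Ω _ P _ Ω' _ P' _ κ ρ ν γ X N Y hX hTr t ht B
  obtain ⟨hae, hlim⟩ := h1 d Ω P Ω' P' κ ρ ν X N Y hX hTr t ht
  obtain ⟨F, hFm, hF⟩ := hae
  have hF' : ∀ᵐ ω ∂P, ∀ᵐ ω' ∂P', pathExposure N Y t (fun s => X s ω') ω = F (ω', ω) := by
    have h3 := (Measure.measurePreserving_swap (μ := P) (ν := P')).quasiMeasurePreserving.ae hF
    exact Measure.ae_ae_of_ae_prod h3
  set E : Set Ω' := {ω' | X t ω' ∈ B} with hEdef
  have hE : MeasurableSet E := hX.meas t (Set.to_countable B).measurableSet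
  have hq : ∀ᵐ ω ∂P, quenchedWeight γ P' X N Y t E ω =
      ∫⁻ ω' in E, Pool.Agent.W845.Traps.En (γ * F (ω', ω)) ∂P' := by
    filter_upwards [hF'] with ω hω
    unfold quenchedWeight
    refine lintegral_congr_ae (ae_restrict_of_ae ?_)
    filter_upwards [hω] with ω' h
    rw [h]
    rfl
  have hmeas : Measurable (fun ω => ∫⁻ ω' in E, Pool.Agent.W845.Traps.En (γ * F (ω', ω)) ∂P') := by
    have h3 : Measurable (fun p : Ω' × Ω => Pool.Agent.W845.Traps.En (γ * F p)) :=
      En_meas.comp (hFm.const_mul _)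
    exact h3.lintegral_prod_left'
  refine ⟨⟨_, hmeas, hq⟩, ?_⟩
  have hγ : (γ : ℝ≥0∞) ≠ ∞ := ENNReal.coe_ne_top
  have hlim2 := ENNReal.Tendsto.const_mul hlim (Or.inr hγ)
  rw [mul_zero] at hlim2
  refine tendsto_of_tendsto_of_tendsto_of_le_of_le' tendsto_const_nhds hlim2
    (Eventually.of_forall fun _ => zero_le) ?_
  filter_upwards [eventually_ge_atTop 1] with n hn
  have hn0 : (n : ℝ≥0) ≠ 0 := by
    have : n ≠ 0 := by omega
    exact_mod_cast this
  have hnt : (n : ℝ≥0) * (t / n) = t := by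
    field_simp
  set H : Ω' × Ω → ℝ≥0∞ :=
    fun p => hitsg N Y (t / n) n (fun k => X (k * (t / n)) p.1) p.2 with hH
  have hHm : Measurable H := hitsg_meas N Y hTr.number_meas (fun y j s => (hTr.trap y j).meas s)
    (t / n) n (fun k => X (k * (t / n))) (fun k => hX.meas _)
  set c : ℝ≥0∞ := ((t / n : ℝ≥0) : ℝ≥0∞) with hc
  set G : Ω' × Ω → ℝ≥0∞ := fun p => (F p - c * H p) + (c * H p - F p) with hG
  have hGm : Measurable G :=
    ((hFm.sub (hHm.const_mul _)).add ((hHm.const_mul _).sub hFm))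
  have hI : ∫⁻ p : Ω' × Ω, ((pathExposure N Y t (fun s => X s p.1) p.2 - c * H p) +
      (c * H p - pathExposure N Y t (fun s => X s p.1) p.2)) ∂(P'.prod P) =
      ∫⁻ ω, ∫⁻ ω', G (ω', ω) ∂P' ∂P := by
    rw [← lintegral_prod_symm' G hGm]
    refine lintegral_congr_ae ?_
    filter_upwards [hF] with p hp
    rw [hG]
    simp only
    rw [hp]
  show _ ≤ (γ : ℝ≥0∞) * ∫⁻ p : Ω' × Ω, ((pathExposure N Y t (fun s => X s p.1) p.2 - c * H p) +
      (c * H p - pathExposure N Y t (fun s => X s p.1) p.2)) ∂(P'.prod P)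
  rw [hI, ← lintegral_const_mul _ (hGm.lintegral_prod_left')]
  refine lintegral_mono_ae ?_
  filter_upwards [hq] with ω hω
  have hGω : Measurable (fun ω' => G (ω', ω)) := hGm.comp measurable_prodMk_right
  rw [← lintegral_const_mul _ hGω]
  set f : Ω' → ℝ≥0∞ := fun ω' => Pool.Agent.W845.Traps.En (γ * F (ω', ω)) with hf
  set g : Ω' → ℝ≥0∞ := fun ω' => Pool.Agent.W845.Traps.En (γ * (c * H (ω', ω))) with hg
  have hFω : Measurable (fun ω' => F (ω', ω)) := hFm.comp measurable_prodMk_right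
  have hHω : Measurable (fun ω' => H (ω', ω)) := hHm.comp measurable_prodMk_right
  have hfm : Measurable f := En_meas.comp (hFω.const_mul _)
  have hgm : Measurable g := En_meas.comp ((hHω.const_mul _).const_mul _)
  have hb : qg P' (γ * (t / n)) X N Y (t / n) n (B.indicator fun _ => 1) ω =
      ∫⁻ ω' in E, g ω' ∂P' := by
    rw [← lintegral_indicator hE]
    unfold qg
    refine lintegral_congr fun ω' => ?_
    rw [hnt]
    by_cases hB : X t ω' ∈ B
    · have hE' : ω' ∈ E := hB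
      rw [Set.indicator_of_mem hB, Set.indicator_of_mem hE', one_mul, hg, ENNReal.coe_mul,
        mul_assoc]
      rfl
    · have hE' : ω' ∉ E := hB
      rw [Set.indicator_of_notMem hB, Set.indicator_of_notMem hE', zero_mul]
  rw [hω, hb]
  have e1 : (∫⁻ ω' in E, f ω' ∂P') - ∫⁻ ω' in E, g ω' ∂P' ≤
      ∫⁻ ω' in E, γ * (c * H (ω', ω) - F (ω', ω)) ∂P' := by
    refine (lintegral_sub_le g f hgm).trans (lintegral_mono fun ω' => ?_)
    rw [tsub_le_iff_left, ENNReal.mul_sub (fun _ _ => hγ)]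
    exact En_lip _ _
  have e2 : (∫⁻ ω' in E, g ω' ∂P') - ∫⁻ ω' in E, f ω' ∂P' ≤
      ∫⁻ ω' in E, γ * (F (ω', ω) - c * H (ω', ω)) ∂P' := by
    refine (lintegral_sub_le f g hfm).trans (lintegral_mono fun ω' => ?_)
    rw [tsub_le_iff_left, ENNReal.mul_sub (fun _ _ => hγ)]
    exact En_lip _ _
  calc _ ≤ (∫⁻ ω' in E, γ * (c * H (ω', ω) - F (ω', ω)) ∂P') +
        ∫⁻ ω' in E, γ * (F (ω', ω) - c * H (ω', ω)) ∂P' := add_le_add e1 e2
    _ = ∫⁻ ω' in E, (γ * (c * H (ω', ω) - F (ω', ω)) + γ * (F (ω', ω) - c * H (ω', ω))) ∂P' := by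
        rw [lintegral_add_left]
        exact (((hHω.const_mul _).sub hFω).const_mul _)
    _ = ∫⁻ ω' in E, γ * G (ω', ω) ∂P' := by
        refine lintegral_congr fun ω' => ?_
        rw [hG]
        ring
    _ ≤ ∫⁻ ω', γ * G (ω', ω) ∂P' := setLIntegral_le_lintegral _ _

end Pool.Agent.W753.QTLIMQ
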